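import Pool.Agent.H72.EM.Basic

/-!
# Row TI of board emc_modules: the host is a simple cubic graph with a proper colouring
-/

set_option autoImplicit false

open Finset Pool.Agent.H72.EM

namespace Pool.Agent.H60.EMC

variable {κ : ℕ}

theorem sg_sg (c : Ix κ → Ix κ → ℕ) (hc : Sy c) (h : Hs κ) : sg c (sg c h) = h := by
  obtain ⟨⟨i, o⟩, s⟩ := h
  have hi := i.2
  cases o with
  | none =>
    cases s with
    | none => rfl
    | some s =>
      cases s with
      | ax =>
        change ((tw (tw i), none), some Sl.ax) = ((i, none), some Sl.ax)
        rw [tw_tw]
      | ay => simp [sg]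
      | az =>
        simp only [sg]
        split_ifs with h1
        · simp only [sg, if_pos h1]
        · simp only [sg, if_neg h1]
      | bv => rfl
      | bx =>
        simp only [sg]
        split_ifs with h1 h2 h3
        · simp only [sg, if_pos h1]
        · have e : i = lst := Fin.ext h2
          subst e
          simp [sg]
        · simp only [sg]
          rw [if_neg (by omega), if_neg (by omega), dif_neg (by omega)]
          refine congrArg (fun z => ((z, none), some Sl.bx)) (Fin.ext ?_)
          change i.val + κ - κ = i.val
          omega
        · simp only [sg]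
          rw [if_neg (by omega), if_neg (by omega), dif_pos (by omega)]
          refine congrArg (fun z => ((z, none), some Sl.bx)) (Fin.ext ?_)
          change i.val - κ + κ = i.val
          omega
      | by' =>
        simp only [sg]
        split_ifs with h1
        · have e : i = zr := Fin.ext h1
          subst e
          simp [sg]
        · simp only [sg, if_neg h1]
      | bz => simp [sg]
  | some j =>
    have hj := j.2
    cases s with
    | none =>
      simp only [sg]
      split_ifs with h1
      · simp only [sg]
        rw [if_pos (by rw [hc.symm]; exact h1)]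
      · simp only [sg]
        rw [if_neg (by rw [hc.symm]; exact h1)]
    | some s =>
      cases s with
      | ax =>
        simp only [sg]
        split_ifs with h1 h2 h3
        · simp only [sg, if_pos h1]
        · have h4 := dn_val j
          rw [if_neg (by omega)] at h4
          simp only [sg]
          rw [if_neg (by omega), if_pos (by omega), up_dn]
        · have e1 : i = zr := Fin.ext h3
          have e2 : j = zr := Fin.ext (by rw [zr_val]; omega)
          subst e1 e2
          simp [sg]
        · have h4 := dn_val i
          rw [if_neg h3] at h4
          simp only [sg]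
          rw [if_neg (by rw [lst_val]; omega), if_neg (by rw [lst_val]; omega),
            if_pos (by omega), up_dn]
          have e : i = j := Fin.ext (by omega)
          rw [e]
      | ay => simp [sg]
      | az => rfl
      | bv =>
        simp only [sg]
        split_ifs with h1
        · simp only [sg]
          rw [if_pos (by rw [hc.symm]; exact h1)]
        · simp only [sg]
          rw [if_neg (by rw [hc.symm]; exact h1)]
      | bx =>
        simp only [sg]
        split_ifs with h1 h2 h3
        · simp only [sg, if_pos h1]
        · have h4 := up_val j
          rw [if_neg (by omega)] at h4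
          simp only [sg]
          rw [if_neg (by omega), if_pos (by omega), dn_up]
        · have h4 := up_val i
          rw [if_neg (by omega)] at h4
          simp only [sg]
          rw [if_neg (by omega), if_neg (by omega), if_neg (by omega), dn_up]
          have e : j = lst := Fin.ext (by rw [lst_val]; omega)
          rw [e]
        · have e1 : i = lst := Fin.ext (by rw [lst_val]; omega)
          have e2 : j = lst := Fin.ext (by rw [lst_val]; omega)
          subst e1 e2
          simp [sg]
      | by' => rfl
      | bz => simp [sg]

theorem nx_ne (h : Hs κ) : nx h ≠ h := by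
  obtain ⟨b, s⟩ := h
  cases s with
  | none => simp [nx]
  | some s => cases s <;> simp [nx]

theorem pv_ne (h : Hs κ) : pv h ≠ h := by
  obtain ⟨b, s⟩ := h
  cases s with
  | none => simp [pv]
  | some s => cases s <;> simp [pv]

theorem nx_ne_pv (h : Hs κ) : nx h ≠ pv h := by
  obtain ⟨b, s⟩ := h
  cases s with
  | none => simp [nx, pv]
  | some s => cases s <;> simp [nx, pv]

theorem sg_ne (c : Ix κ → Ix κ → ℕ) (hc : Sy c) (h : Hs κ) :
    sg c h ≠ h ∧ sg c h ≠ nx h ∧ sg c h ≠ pv h := by
  obtain ⟨⟨i, o⟩, s⟩ := h
  have hi := i.2
  have hlz : (lst : Ix κ) ≠ zr := by
    intro h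
    have := congrArg Fin.val h
    rw [lst_val, zr_val] at this
    omega
  cases o with
  | none =>
    cases s with
    | none => simp [sg, nx, pv]
    | some s =>
      cases s with
      | ax => simp [sg, nx, pv, tw_ne]
      | ay => simp [sg, nx, pv]
      | az =>
        simp only [sg, nx, pv]
        split_ifs <;> simp
      | bv => simp [sg, nx, pv]
      | bx =>
        simp only [sg, nx, pv]
        split_ifs with h1 h2 h3
        · simp
        · simp
        · simp only [ne_eq, Prod.mk.injEq, Fin.ext_iff, Option.some.injEq, reduceCtorEq,
            and_false, not_false_eq_true, and_true]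
          omega
        · simp only [ne_eq, Prod.mk.injEq, Fin.ext_iff, Option.some.injEq, reduceCtorEq,
            and_false, not_false_eq_true, and_true]
          omega
      | by' =>
        simp only [sg, nx, pv]
        split_ifs <;> simp
      | bz => simp [sg, nx, pv]
  | some j =>
    have hj := j.2
    cases s with
    | none =>
      simp only [sg, nx, pv]
      split_ifs with h1
      · simp
      · refine ⟨?_, by simp, by simp⟩
        intro he
        simp only [Prod.mk.injEq, Option.some.injEq, and_true] at he
        rw [he.1, hc.diag] at h1
        exact h1 rfl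
    | some s =>
      cases s with
      | ax =>
        simp only [sg, nx, pv]
        split_ifs <;> simp
      | ay => simp [sg, nx, pv]
      | az => simp [sg, nx, pv]
      | bv =>
        simp only [sg, nx, pv]
        split_ifs with h1
        · simp
        · refine ⟨?_, by simp, by simp⟩
          intro he
          simp only [Prod.mk.injEq, Option.some.injEq, and_true] at he
          rw [he.1, hc.diag] at h1
          exact h1 rfl
      | bx =>
        simp only [sg, nx, pv]
        split_ifs <;> simp
      | by' => simp [sg, nx, pv]
      | bz => simp [sg, nx, pv]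

theorem qcol_nx (h : Hs κ) : qcol (nx h).2 = ncol h.2 := by
  obtain ⟨b, s⟩ := h
  cases s with
  | none => rfl
  | some s => cases s <;> rfl

theorem ncol_pv (h : Hs κ) : ncol (pv h).2 = qcol h.2 := by
  obtain ⟨b, s⟩ := h
  cases s with
  | none => rfl
  | some s => cases s <;> rfl

theorem hcol_1 (h : Hs κ) : hcol (h, 1) = qcol h.2 := rfl

theorem hcol_2 (h : Hs κ) : hcol (h, 2) = ncol h.2 := rfl

theorem col_ne : ∀ s : Option Sl, qcol s ≠ 0 ∧ ncol s ≠ 0 ∧ qcol s ≠ ncol s := by
  decide

theorem pf_TI : T_TI := by
  intro κ c hc
  refine ⟨⟨?_, ?_, ?_⟩, ⟨?_, ?_⟩⟩
  · rintro ⟨h, a⟩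
    fin_cases a
    · change (sg c (sg c h), (0 : Fin 3)) = (h, 0)
      rw [sg_sg c hc]
    · change (nx (pv h), (1 : Fin 3)) = (h, 1)
      rw [nx_pv]
    · change (pv (nx h), (2 : Fin 3)) = (h, 2)
      rw [pv_nx]
  · rintro ⟨h, a⟩
    fin_cases a
    · exact (sg_ne c hc h).1
    · exact pv_ne h
    · exact nx_ne h
  · intro h a b hab
    have h1 := sg_ne c hc h
    have h2 := nx_ne_pv h
    fin_cases a <;> fin_cases b
    · rfl
    · exact absurd hab h1.2.2
    · exact absurd hab h1.2.1
    · exact absurd hab.symm h1.2.2
    · rfl
    · exact absurd hab.symm h2
    · exact absurd hab.symm h1.2.1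
    · exact absurd hab h2
    · rfl
  · rintro ⟨h, a⟩
    fin_cases a
    · rfl
    · exact ncol_pv h
    · exact qcol_nx h
  · intro h a b hab
    obtain ⟨h1, h2, h3⟩ := col_ne h.2
    fin_cases a <;> fin_cases b
    · rfl
    · exact absurd hab.symm h1
    · exact absurd hab.symm h2
    · exact absurd hab h1
    · rfl
    · exact absurd hab h3
    · exact absurd hab h2
    · exact absurd hab.symm h3
    · rfl

end Pool.Agent.H60.EMC
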