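import Pool.Agent.H72.EM.Basic
import Pool.Agent.H60.EMC.TI

/-!
# Row TF of board emc_modules: the final graph is a simple cubic graph with a proper colouring
-/

set_option autoImplicit false

open Finset Pool.Agent.H72.EM

namespace Pool.Agent.H60.EMC

variable {κ m : ℕ}

/-- the host vertex of a vertex -/
def bs : Vt κ m → Hs κ
  | (b, none) => (b, none)
  | (b, some (s, _)) => (b, some s)

theorem bs_lft (x : Dt (Hs κ)) : bs (lft (m := m) x).1 = x.1 := by
  obtain ⟨⟨b, o⟩, l⟩ := x
  cases o <;> rfl

theorem ft_inl (c : Ix κ → Ix κ → ℕ) (b : Bk κ) (s : Sl) (q q' : PV m) (a a' : Fin 3)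
    (h : io (kd b s) q a = .inl (q', a')) :
    ft c ((b, some (s, q)), a) = ((b, some (s, q')), a') := by
  simp only [ft, h]

theorem ft_inr (c : Ix κ → Ix κ → ℕ) (b : Bk κ) (s : Sl) (q : PV m) (a l : Fin 3)
    (h : io (kd b s) q a = .inr l) :
    ft c ((b, some (s, q)), a) = lft (ht c ((b, some s), l)) := by
  simp only [ft, h]

theorem ft_lft (h2 : T_PI) (c : Ix κ → Ix κ → ℕ) (x : Dt (Hs κ)) :
    ft c (lft (m := m) x) = lft (ht c x) := by
  obtain ⟨⟨b, o⟩, l⟩ := x
  cases o with
  | none => rfl
  | some s =>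
    have h := ((h2 m (kd b s)).2.1 (lgv l) 0 l).2 ⟨rfl, rfl⟩
    exact ft_inr c b s _ _ _ h

theorem dart_cases (h2 : T_PI) (c : Ix κ → Ix κ → ℕ) (y : Dt (Vt κ m)) :
    (∃ x : Dt (Hs κ), y = lft x) ∨ ∃ (b : Bk κ) (s : Sl) (q q' : PV m) (a a' : Fin 3),
      y = ((b, some (s, q)), a) ∧ io (kd b s) q a = .inl (q', a') ∧
        ft c y = ((b, some (s, q')), a') := by
  obtain ⟨⟨b, o⟩, a⟩ := y
  cases o with
  | none => exact Or.inl ⟨((b, none), a), rfl⟩
  | some o =>
    obtain ⟨s, q⟩ := o
    cases h : io (kd b s) q a with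
    | inl p =>
      obtain ⟨q', a'⟩ := p
      exact Or.inr ⟨b, s, q, q', a, a', rfl, h, ft_inl c b s q q' a a' h⟩
    | inr l =>
      obtain ⟨hq, ha⟩ := ((h2 m (kd b s)).2.1 q a l).1 h
      subst hq ha
      exact Or.inl ⟨((b, some s), l), rfl⟩

theorem fcol_lft (h2 : T_PI) (x : Dt (Hs κ)) : fcol (lft (m := m) x) = hcol x := by
  obtain ⟨⟨b, o⟩, l⟩ := x
  cases o with
  | none => rfl
  | some s =>
    have h := (h2 m (kd b s)).2.2.2.2 (qcol (some s)) (ncol (some s))
    fin_cases l
    · exact h.1
    · exact h.2.1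
    · exact h.2.2

theorem fr_in (c : Ix κ → Ix κ → ℕ) (b : Bk κ) (s : Sl) (q : PV m) (a : Fin 3) :
    fr c ((b, some (s, q)), a) = rd (q, a) := by
  obtain ⟨i, o⟩ := b
  cases o <;> rfl

theorem fr_lft (c : Ix κ → Ix κ → ℕ) (x : Dt (Hs κ)) :
    fr c (lft (m := m) x) = true ↔ ∃ i j, x = (((i, some j), none), 0) ∧ c i j = 2 := by
  obtain ⟨⟨b, o⟩, l⟩ := x
  cases o with
  | none =>
    obtain ⟨i, o⟩ := b
    cases o with
    | none =>
      constructor
      · intro h
        exact absurd h (by simp [lft, fr])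
      · rintro ⟨i', j', h, -⟩
        simp at h
    | some j =>
      fin_cases l
      · change decide (c i j = 2) = true ↔ _
        rw [decide_eq_true_iff]
        constructor
        · intro h
          exact ⟨i, j, rfl, h⟩
        · rintro ⟨i', j', h, h'⟩
          simp only [Prod.mk.injEq, Option.some.injEq, and_true] at h
          rw [h.1.1, h.1.2]
          exact h'
      · constructor
        · intro h
          exact absurd h (by simp [lft, fr])
        · rintro ⟨i', j', h, -⟩
          simp at h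
      · constructor
        · intro h
          exact absurd h (by simp [lft, fr])
        · rintro ⟨i', j', h, -⟩
          simp at h
  | some s =>
    constructor
    · intro h
      have h1 : fr c (lft (m := m) ((b, some s), l)) = rd (m := m) (lgv l, 0) := fr_in c b s _ _
      rw [h1] at h
      fin_cases l
      · exact absurd h (by simp [lgv, rd])
      · exact absurd h (by simp [lgv, rd])
      · exact absurd h (by simp [lgv, rd])
    · rintro ⟨i', j', h, -⟩
      simp at h

theorem pf_TF (h1 : T_TI) (h2 : T_PI) : T_TF := by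
  intro κ m c hc
  obtain ⟨hP, hC⟩ := h1 κ c hc
  refine ⟨⟨?_, ?_, ?_⟩, ⟨?_, ?_⟩, ?_⟩
  · intro y
    rcases dart_cases h2 c y with ⟨x, rfl⟩ | ⟨b, s, q, q', a, a', rfl, hio, hft⟩
    · rw [ft_lft h2, ft_lft h2, hP.inv]
    · rw [hft]
      exact ft_inl c b s q' q a' a ((h2 m (kd b s)).1 q a q' a' hio).1
  · intro y
    rcases dart_cases h2 c y with ⟨x, rfl⟩ | ⟨b, s, q, q', a, a', rfl, hio, hft⟩
    · rw [ft_lft h2]
      intro h
      have h' := congrArg bs h
      rw [bs_lft, bs_lft] at h'
      exact hP.ne x h'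
    · rw [hft]
      intro h
      have h' : q' = q := by
        simpa using h
      exact ((h2 m (kd b s)).1 q a q' a' hio).2.1 h'
  · intro v a a₂ h
    obtain ⟨b, o⟩ := v
    cases o with
    | none =>
      have h' := congrArg bs h
      change bs (lft (ht c ((b, none), a))).1 = bs (lft (ht c ((b, none), a₂))).1 at h'
      rw [bs_lft, bs_lft] at h'
      exact hP.inj _ _ _ h'
    | some o =>
      obtain ⟨s, q⟩ := o
      cases e1 : io (kd b s) q a with
      | inl p =>
        obtain ⟨q', a'⟩ := p
        rw [ft_inl c b s q q' a a' e1] at h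
        cases e2 : io (kd b s) q a₂ with
        | inl p2 =>
          obtain ⟨q'', a''⟩ := p2
          rw [ft_inl c b s q q'' a₂ a'' e2] at h
          have h' : q' = q'' := by simpa using h
          rw [← h'] at e2
          exact (h2 m (kd b s)).2.2.1 q a a₂ q' a' a'' e1 e2
        | inr l =>
          rw [ft_inr c b s q a₂ l e2] at h
          have h' := congrArg bs h
          rw [bs_lft] at h'
          exact absurd h'.symm (hP.ne ((b, some s), l))
      | inr l =>
        rw [ft_inr c b s q a l e1] at h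
        cases e2 : io (kd b s) q a₂ with
        | inl p2 =>
          obtain ⟨q'', a''⟩ := p2
          rw [ft_inl c b s q q'' a₂ a'' e2] at h
          have h' := congrArg bs h
          rw [bs_lft] at h'
          exact absurd h' (hP.ne ((b, some s), l))
        | inr l' =>
          rw [(((h2 m (kd b s)).2.1 q a l).1 e1).2, (((h2 m (kd b s)).2.1 q a₂ l').1 e2).2]
  · intro y
    rcases dart_cases h2 c y with ⟨x, rfl⟩ | ⟨b, s, q, q', a, a', rfl, hio, hft⟩
    · rw [ft_lft h2, fcol_lft h2, fcol_lft h2, hC.inv]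
    · rw [hft]
      exact ((h2 m (kd b s)).1 q a q' a' hio).2.2.2 _ _
  · intro v a a₂ h
    obtain ⟨b, o⟩ := v
    cases o with
    | none => exact hC.inj (b, none) a a₂ h
    | some o =>
      obtain ⟨s, q⟩ := o
      obtain ⟨n1, n2, n3⟩ := col_ne (some s)
      exact (h2 m (kd b s)).2.2.2.1 _ _ n1 n2 n3 q a a₂ h
  · intro y
    rcases dart_cases h2 c y with ⟨x, rfl⟩ | ⟨b, s, q, q', a, a', rfl, hio, hft⟩
    · rw [ft_lft h2]
      have key : ∀ x : Dt (Hs κ), fr c (lft (m := m) x) = true →
          fr c (lft (m := m) (ht c x)) = true := by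
        intro x hx
        obtain ⟨i, j, rfl, hij⟩ := (fr_lft c x).1 hx
        refine (fr_lft c _).2 ⟨j, i, ?_, ?_⟩
        · change (sg c ((i, some j), none), (0 : Fin 3)) = _
          simp only [sg]
          rw [if_neg (by omega)]
        · rw [hc.symm]
          exact hij
      rw [Bool.eq_iff_iff]
      constructor
      · intro h
        have := key _ h
        rwa [hP.inv] at this
      · exact key x
    · rw [hft, fr_in, fr_in]
      exact ((h2 m (kd b s)).1 q a q' a' hio).2.2.1

end Pool.Agent.H60.EMC
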