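import Pool.Agent.H72.EM.Basic
import Pool.Agent.H60.EMC.TF

/-!
# Row FB of board emc_modules: from the host to the final graph
-/

set_option autoImplicit false

open Finset Pool.Agent.H72.EM

namespace Pool.Agent.H60.EMC

variable {κ m : ℕ}

theorem ht_inv (c : Ix κ → Ix κ → ℕ) (hc : Sy c) (x : Dt (Hs κ)) : ht c (ht c x) = x :=
  (pf_TI κ c hc).1.inv x

theorem pf_FB (h1 : T_TF) (h2 : T_PI) (h3 : T_PX) : T_FB := by
  intro κ m c hc ω hω
  have hX : ∀ (b : Bk κ) (s : Sl), ∃ χ : PV m → Fin 3, LM (kd b s) χ ∧ rcnt χ = 0 ∧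
      ∀ l', (χ (lgv l') = 0 ↔ l' = ω (b, some s)) := by
    intro b s
    refine h3 m (kd b s) (ω (b, some s)) ?_ ?_
    · intro h
      obtain ⟨e1, rfl⟩ := of_decide_eq_true h
      obtain ⟨i, o⟩ := b
      change o = none at e1
      subst e1
      exact hω.forced i
    · intro h
      exact hω.closed b s (of_decide_eq_false h)
  choose X hX1 hX2 hX3 using hX
  let χ : Vt κ m → Fin 3 := fun v => match v with
    | (b, none) => ω (b, none)
    | (b, some (s, q)) => X b s q
  have hlft : ∀ x : Dt (Hs κ), χ (lft (m := m) x).1 = (lft (m := m) x).2 ↔ ω x.1 = x.2 := by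
    rintro ⟨⟨b, o⟩, l⟩
    cases o with
    | none => exact Iff.rfl
    | some s =>
      change X b s (lgv l) = 0 ↔ ω (b, some s) = l
      rw [hX3]
      exact eq_comm
  have hused : ∀ y : Dt (Vt κ m), χ y.1 = y.2 → χ (ft c y).1 = (ft c y).2 := by
    intro y hy
    rcases dart_cases h2 c y with ⟨x, rfl⟩ | ⟨b, s, q, q', a, a', rfl, hio, hft⟩
    · rw [ft_lft h2, hlft]
      rw [hlft] at hy
      exact (IsM.iff hω.isM (ht_inv c hc) x.1 x.2).1 hy
    · rw [hft]
      exact (hX1 b s q a q' a' hio).1 hy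
  refine ⟨χ, fun v => (hused (v, χ v) rfl).symm, ?_⟩
  unfold cnt hcnt
  symm
  refine Finset.card_bij (fun p _ => (((p.1, some p.2), none) : Vt κ m)) ?_ ?_ ?_
  · rintro ⟨i, j⟩ hp
    rw [Finset.mem_filter] at hp ⊢
    refine ⟨Finset.mem_univ _, ?_⟩
    have h4 : χ ((i, some j), none) = 0 := hp.2.1
    rw [h4]
    exact (fr_lft (m := m) c (((i, some j), none), 0)).2 ⟨i, j, rfl, hp.2.2⟩
  · rintro ⟨i, j⟩ _ ⟨i', j'⟩ _ h
    simp only [Prod.mk.injEq, Option.some.injEq, and_true] at h
    rw [h.1, h.2]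
  · rintro ⟨b, o⟩ hv
    rw [Finset.mem_filter] at hv
    cases o with
    | none =>
      obtain ⟨i, j, h4, h5⟩ := (fr_lft (m := m) c ((b, none), ω (b, none))).1 hv.2
      simp only [Prod.mk.injEq, and_true] at h4
      refine ⟨(i, j), ?_, ?_⟩
      · rw [Finset.mem_filter]
        refine ⟨Finset.mem_univ _, ?_, h5⟩
        rw [← h4.1]
        exact h4.2
      · rw [h4.1]
    | some o =>
      obtain ⟨s, q⟩ := o
      exfalso
      have h4 : rd (q, X b s q) = true := by
        rw [← fr_in c b s q]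
        exact hv.2
      have h5 := hX2 b s
      unfold rcnt at h5
      rw [Finset.card_eq_zero] at h5
      have h6 : q ∈ (univ.filter fun q => rd (q, X b s q) = true) :=
        Finset.mem_filter.2 ⟨Finset.mem_univ _, h4⟩
      rw [h5] at h6
      exact absurd h6 (Finset.notMem_empty _)

end Pool.Agent.H60.EMC
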