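import Pool.Agent.H72.EM.Basic

/-!
# Row GC of board emc_modules: the halves of the blocks are connected
-/

set_option autoImplicit false

open Finset Pool.Agent.H72.EM

namespace Pool.Agent.H60.EMC

theorem pf_GC : T_GC := by
  intro κ c hc
  let Q : Bk κ × Bool → Prop := fun u => Relation.EqvGen (GS c) ((zr, some zr), false) u
  have st : ∀ u v, Q u → GS c u v → Q v := fun u v hu h =>
    Relation.EqvGen.trans _ _ _ hu (Relation.EqvGen.rel _ _ h)
  have ts : ∀ u v, Q u → GS c v u → Q v := fun u v hu h =>
    Relation.EqvGen.trans _ _ _ hu (Relation.EqvGen.symm _ _ (Relation.EqvGen.rel _ _ h))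
  have hbase : Q ((zr, some zr), false) := Relation.EqvGen.refl _
  -- the four points of a pair
  have four : ∀ i j : Ix κ, i.val ≤ j.val → Q ((i, some j), false) →
      ∀ b, Q ((i, some j), b) ∧ Q ((j, some i), b) := by
    intro i j hij h
    rcases Nat.lt_or_ge i.val j.val with hlt | hge
    · by_cases h0 : c i j = 0
      · have h1 : Q ((j, some i), true) := st _ _ h (.cross i j h0)
        have h2 : Q ((j, some i), false) := ts _ _ h1 (.low j i hlt)
        have h3 : Q ((i, some j), true) := st _ _ h2 (.cross j i (by rw [hc.symm]; exact h0))
        intro b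
        cases b
        · exact ⟨h, h2⟩
        · exact ⟨h3, h1⟩
      · have h1 : Q ((j, some i), false) := st _ _ h (.par i j false h0)
        have h2 : Q ((j, some i), true) := st _ _ h1 (.low j i hlt)
        have h3 : Q ((i, some j), true) := ts _ _ h2 (.par i j true h0)
        intro b
        cases b
        · exact ⟨h, h1⟩
        · exact ⟨h3, h2⟩
    · have e : i = j := Fin.ext (by omega)
      subst e
      have h1 : Q ((i, some i), true) := st _ _ h (.cross i i (hc.diag i))
      intro b
      cases b
      · exact ⟨h, h⟩
      · exact ⟨h1, h1⟩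
  have hrow : ∀ i : Ix κ, Q ((i, some i), false) → ∀ (n : ℕ) (j : Ix κ), j.val = i.val + n →
      Q ((i, some j), false) := by
    intro i hi n
    induction n with
    | zero =>
      intro j hj
      have e : j = i := Fin.ext hj
      rw [e]
      exact hi
    | succ n ih =>
      intro j hj
      have hd := dn_val j
      rw [if_neg (by omega)] at hd
      have h1 := (four i (dn j) (by omega) (ih (dn j) (by omega)) true).1
      have h2 := st _ _ h1 (.row i (dn j) (by omega) (by have := j.2; omega))
      rwa [up_dn] at h2
  have hdiag : ∀ (n : ℕ) (i : Ix κ), i.val = n → Q ((i, some i), false) := by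
    intro n
    induction n with
    | zero =>
      intro i hi
      have e : i = zr := Fin.ext hi
      rw [e]
      exact hbase
    | succ n ih =>
      intro i hi
      have hd := dn_val i
      rw [if_neg (by omega)] at hd
      have hi2 := i.2
      have h0 := ih (dn i) (by omega)
      have hl : (lst : Ix κ).val = (dn i).val + (2 * κ + 1 - (dn i).val) := by
        rw [lst_val]
        omega
      have h1 := (four (dn i) lst (by rw [lst_val]; omega) (hrow _ h0 _ lst hl) true).1
      have h2 := st _ _ h1 (.nextrow (dn i) (by omega))
      rwa [up_dn] at h2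
  have hpair : ∀ i j : Ix κ, i.val ≤ j.val → ∀ b, Q ((i, some j), b) ∧ Q ((j, some i), b) := by
    intro i j hij
    refine four i j hij (hrow i (hdiag _ i rfl) (j.val - i.val) j (by omega))
  -- the link blocks
  have hlk : ∀ i : Ix κ, ∀ b, Q ((i, none), b) → ∀ b', Q ((i, none), b') := by
    intro i b h b'
    cases b <;> cases b'
    · exact h
    · exact st _ _ h (.link i)
    · exact ts _ _ h (.link i)
    · exact h
  have hlink : ∀ (n : ℕ), n ≤ κ → (∀ i : Ix κ, i.val = κ - n → Q ((i, none), false)) ∧
      ∀ i : Ix κ, i.val = 2 * κ + 1 - n → Q ((i, none), false) := by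
    intro n
    induction n with
    | zero =>
      intro _
      have h1 : Q ((lst, none), false) :=
        hlk lst true (ts _ _ hbase .start) false
      have h2 : Q ((tw lst, none), false) := st _ _ h1 (.twin lst)
      constructor
      · intro i hi
        have e : i = tw lst := by
          apply Fin.ext
          rw [tw_val, lst_val, if_neg (by omega)]
          omega
        rw [e]
        exact h2
      · intro i hi
        have e : i = lst := Fin.ext (by rw [lst_val]; omega)
        rw [e]
        exact h1
    | succ n ih =>
      intro hn
      obtain ⟨h1, -⟩ := ih (by omega)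
      have h2 : ∀ i : Ix κ, i.val = 2 * κ + 1 - (n + 1) → Q ((i, none), false) := by
        intro i hi
        have h3 : Q (((⟨κ - n, by omega⟩ : Ix κ), none), true) :=
          hlk _ false (h1 ⟨κ - n, by omega⟩ rfl) true
        have h4 := st _ _ h3 (.shift ⟨κ - n, by omega⟩ i (by change 1 ≤ κ - n; omega)
          (by change i.val = κ - n + κ; omega) (by change κ - n ≤ κ; omega))
        exact hlk _ true h4 false
      refine ⟨?_, h2⟩
      intro i hi
      have h3 := h2 ⟨2 * κ + 1 - (n + 1), by omega⟩ rfl
      have h4 := st _ _ h3 (.twin _)
      have e : i = tw ⟨2 * κ + 1 - (n + 1), by omega⟩ := by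
        apply Fin.ext
        rw [tw_val, if_neg (by change ¬ (2 * κ + 1 - (n + 1) < κ + 1); omega)]
        change i.val = 2 * κ + 1 - (n + 1) - (κ + 1)
        omega
      rw [e]
      exact h4
  have hall : ∀ u, Q u := by
    rintro ⟨⟨i, o⟩, b⟩
    cases o with
    | none =>
      have hi := i.2
      refine hlk i false ?_ b
      by_cases h : i.val ≤ κ
      · exact (hlink (κ - i.val) (by omega)).1 i (by omega)
      · exact (hlink (2 * κ + 1 - i.val) (by omega)).2 i (by omega)
    | some j =>
      rcases le_total i.val j.val with h | h
      · exact (hpair i j h b).1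
      · exact (hpair j i h b).2
  intro u v
  exact Relation.EqvGen.trans _ _ _ (Relation.EqvGen.symm _ _ (hall u)) (hall v)

end Pool.Agent.H60.EMC
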