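import Pool.Agent.H72.EM.Basic
import Pool.Agent.H60.EMC.TI

/-!
# Row H0 of board emc_modules: the Hamiltonian cycle
-/

set_option autoImplicit false

open Finset Pool.Agent.H72.EM

namespace Pool.Agent.H60.EMC

variable {κ : ℕ}

/-- induction along the Hamiltonian cycle -/
theorem cyc_ind (Q : Hs κ → Prop) (h0 : Q ((zr, none), none)) (hs : ∀ v, Q v → Q (nx v)) :
    ∀ v, Q v := by
  have hb : ∀ b : Bk κ, Q (b, none) → (∀ s, Q (b, some s)) ∧ Q (nxB b, none) := by
    intro b hb
    have a1 : Q (b, some .ax) := hs _ hb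
    have a2 : Q (b, some .ay) := hs _ a1
    have a3 : Q (b, some .az) := hs _ a2
    have a4 : Q (b, some .bv) := hs _ a3
    have a5 : Q (b, some .bx) := hs _ a4
    have a6 : Q (b, some .by') := hs _ a5
    have a7 : Q (b, some .bz) := hs _ a6
    refine ⟨fun s => ?_, hs _ a7⟩
    cases s <;> assumption
  have hrow : ∀ i : Ix κ, Q ((i, none), none) → ∀ (n : ℕ) (j : Ix κ), j.val = n →
      Q ((i, some j), none) := by
    intro i hi n
    induction n with
    | zero =>
      intro j hj
      have e : j = zr := Fin.ext hj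
      rw [e]
      exact (hb _ hi).2
    | succ n ih =>
      intro j hj
      have hd := dn_val j
      rw [if_neg (by omega)] at hd
      have h1 := (hb _ (ih (dn j) (by omega))).2
      rw [nxB_some, if_neg (by have := j.2; omega), up_dn] at h1
      exact h1
  have hcol : ∀ (n : ℕ) (i : Ix κ), i.val = n → Q ((i, none), none) := by
    intro n
    induction n with
    | zero =>
      intro i hi
      have e : i = zr := Fin.ext hi
      rw [e]
      exact h0
    | succ n ih =>
      intro i hi
      have hd := dn_val i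
      rw [if_neg (by omega)] at hd
      have h1 := (hb _ (hrow _ (ih (dn i) (by omega)) _ lst rfl)).2
      rw [nxB_some, if_pos (lst_val), up_dn] at h1
      exact h1
  have hall : ∀ b : Bk κ, Q (b, none) := by
    rintro ⟨i, o⟩
    cases o with
    | none => exact hcol _ i rfl
    | some j => exact hrow _ (hcol _ i rfl) _ j rfl
  rintro ⟨b, o⟩
  cases o with
  | none => exact hall b
  | some s => exact (hb b (hall b)).1 s

theorem pf_H0 : T_H0 := by
  intro κ c _
  have hnx : ∀ v : Hs κ, stp (ht c) hcol 0 v (nx v) := fun v => ⟨2, (col_ne v.2).2.1, rfl⟩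
  have hpv : ∀ v : Hs κ, stp (ht c) hcol 0 (nx v) v := fun v =>
    ⟨1, (col_ne (nx v).2).1, pv_nx v⟩
  have key : ∀ v : Hs κ, Relation.ReflTransGen (stp (ht c) hcol 0) ((zr, none), none) v ∧
      Relation.ReflTransGen (stp (ht c) hcol 0) v ((zr, none), none) := by
    refine cyc_ind _ ⟨Relation.ReflTransGen.refl, Relation.ReflTransGen.refl⟩ ?_
    intro v hv
    exact ⟨hv.1.tail (hnx v), hv.2.head (hpv v)⟩
  intro v w
  exact (key v).2.trans (key w).1

end Pool.Agent.H60.EMC
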