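import Pool.Agent.H72.EM.Basic
import Pool.Agent.H60.EMC.TF

/-!
# Row UC of board emc_modules: a colouring of the final graph is determined by the colours of the
host edges
-/

set_option autoImplicit false

open Finset Pool.Agent.H72.EM

namespace Pool.Agent.H60.EMC

theorem pf_UC (h1 : T_TF) (h2 : T_PI) (h3 : T_PU) : T_UC := by
  intro κ m c hc f g hf hg hfg
  funext y
  obtain ⟨⟨b, o⟩, a⟩ := y
  cases o with
  | none => exact hfg ((b, none), a)
  | some o =>
    obtain ⟨s, q⟩ := o
    have h := h3 m (kd b s) (fun p => f ((b, some (s, p.1)), p.2))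
      (fun p => g ((b, some (s, p.1)), p.2))
      (fun q a q' a' hio => by
        have hft := ft_inl c b s q q' a a' hio
        refine ⟨?_, ?_⟩
        · change f ((b, some (s, q')), a') = f ((b, some (s, q)), a)
          rw [← hft, hf.inv]
        · change g ((b, some (s, q')), a') = g ((b, some (s, q)), a)
          rw [← hft, hg.inv])
      (fun q a a' h => hf.inj _ _ _ h) (fun q a a' h => hg.inj _ _ _ h)
      (fun l => hfg ((b, some s), l))
    exact congrFun h (q, a)

end Pool.Agent.H60.EMC
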